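import Pool.Agent.P.MP_9167e9_an.StG

/-! The near set: fine positions and short words. -/

noncomputable section
open scoped Classical

namespace Pool.Agent.P.MP_9167e9_an

namespace NearG

theorem nr_one {A : Type} : nr (1 : FreeGroup A) = 0 := by
  unfold nr; exact @FreeGroup.norm_one A (Classical.decEq A)

theorem nr_mul {A : Type} (x y : FreeGroup A) : nr (x * y) ≤ nr x + nr y := by
  unfold nr; exact @FreeGroup.norm_mul_le A (Classical.decEq A) x y

theorem nr_inv {A : Type} (x : FreeGroup A) : nr x⁻¹ = nr x := by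
  unfold nr; exact @FreeGroup.norm_inv_eq A (Classical.decEq A) x

theorem nr_of {A : Type} (a : A) : nr (FreeGroup.of a) = 1 := by
  unfold nr; exact @FreeGroup.norm_of A (Classical.decEq A) a

theorem nr_zero {A : Type} {x : FreeGroup A} (h : nr x = 0) : x = 1 := by
  unfold nr at h; exact (@FreeGroup.norm_eq_zero A (Classical.decEq A) x).1 h

theorem nr_pow {A : Type} (a : A) (n : ℕ) : nr (FreeGroup.of a ^ n) ≤ n := by
  induction n with
  | zero => simp [nr_one]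
  | succ n ih =>
    rw [pow_succ]
    have := nr_mul (FreeGroup.of a ^ n) (FreeGroup.of a)
    rw [nr_of] at this
    omega

theorem nr_hom_mk {A B : Type} (φ : FreeGroup A →* FreeGroup B)
    (h : ∀ a, nr (φ (FreeGroup.of a)) ≤ 1) (L : List (A × Bool)) :
    nr (φ (FreeGroup.mk L)) ≤ L.length := by
  induction L with
  | nil =>
    have : (FreeGroup.mk ([] : List (A × Bool))) = 1 := rfl
    rw [this, map_one, nr_one]; simp
  | cons a L ih =>
    have e : FreeGroup.mk (a :: L) = FreeGroup.mk [a] * FreeGroup.mk L := by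
      rw [FreeGroup.mul_mk]; rfl
    have h1 : nr (φ (FreeGroup.mk [a])) ≤ 1 := by
      obtain ⟨a, b⟩ := a
      cases b
      · have : FreeGroup.mk [(a, false)] = (FreeGroup.of a)⁻¹ := rfl
        rw [this, map_inv, nr_inv]; exact h a
      · exact h a
    rw [e, map_mul]
    have := nr_mul (φ (FreeGroup.mk [a])) (φ (FreeGroup.mk L))
    simp only [List.length_cons]
    omega

theorem nr_hom {A B : Type} (φ : FreeGroup A →* FreeGroup B)
    (h : ∀ a, nr (φ (FreeGroup.of a)) ≤ 1) (x : FreeGroup A) : nr (φ x) ≤ nr x := by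
  have e := @FreeGroup.mk_toWord A (Classical.decEq A) x
  have := nr_hom_mk φ h (@FreeGroup.toWord A (Classical.decEq A) x)
  rw [e] at this
  exact this

variable {P : Prm} (F : Set (Cell P)) (c : Cell P)

/-- Forget the lamp generators. -/
def pL (S : Type) : FreeGroup (S ⊕ S) →* FreeGroup S :=
  FreeGroup.lift (Sum.elim FreeGroup.of fun _ => 1)

/-- Words in the moves. -/
def iL (S : Type) : FreeGroup S →* FreeGroup (S ⊕ S) :=
  FreeGroup.lift fun s => FreeGroup.of (Sum.inl s)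

theorem nr_pL {S : Type} (u : FreeGroup (S ⊕ S)) : nr (pL S u) ≤ nr u := by
  refine nr_hom _ ?_ u
  rintro (s | s)
  · simp [pL, nr_of]
  · simp [pL, nr_one]

theorem nr_iL {S : Type} (u : FreeGroup S) : nr (iL S u) ≤ nr u := by
  refine nr_hom _ ?_ u
  intro s
  simp [iL, nr_of]

theorem am_inl (s : P.S) (z : Zm F c) :
    am F c (FreeGroup.of (Sum.inl s)) z = (mkG F (FreeGroup.of s) * z.1, z.2) := by
  obtain ⟨γ, n⟩ := z
  simp [am]

theorem am_inr (s : P.S) (z : Zm F c) :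
    am F c (FreeGroup.of (Sum.inr s)) z = (z.1, lampN F (z.1, s) 1 • z.2) := by
  obtain ⟨γ, n⟩ := z
  simp [am]

theorem am_fst (u : FreeGroup (P.S ⊕ P.S)) :
    ∀ z : Zm F c, (am F c u z).1 = mkG F (pL P.S u) * z.1 := by
  induction u using FreeGroup.induction_on with
  | C1 => intro z; simp
  | of x =>
    intro z
    cases x with
    | inl s => rw [am_inl]; simp [pL]
    | inr s => rw [am_inr]; simp [pL]
  | inv_of x ih =>
    intro z
    have := ih (am F c (FreeGroup.of x)⁻¹ z)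
    rw [← Equiv.Perm.mul_apply, ← map_mul, mul_inv_cancel, map_one, Equiv.Perm.one_apply] at this
    rw [map_inv (pL P.S), map_inv (mkG F), this, inv_mul_cancel_left]
  | mul x y hx hy =>
    intro z
    rw [map_mul, Equiv.Perm.mul_apply, hx, hy, map_mul, map_mul, mul_assoc]

theorem am_iL (a : FreeGroup P.S) :
    ∀ z : Zm F c, am F c (iL P.S a) z = (mkG F a * z.1, z.2) := by
  induction a using FreeGroup.induction_on with
  | C1 => intro z; simp
  | of x =>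
    intro z
    have : iL P.S (FreeGroup.of x) = FreeGroup.of (Sum.inl x) := by simp [iL]
    rw [this, am_inl]
  | inv_of x ih =>
    intro z
    have := ih ((mkG F (FreeGroup.of x))⁻¹ * z.1, z.2)
    rw [map_inv, map_inv, map_inv, Equiv.Perm.inv_eq_iff_eq, this]
    simp
  | mul x y hx hy =>
    intro z
    rw [map_mul, map_mul, Equiv.Perm.mul_apply, hy, hx, map_mul, mul_assoc]

variable {F c}

theorem lamp_nat (hN : NFOut F) (f : Lm F) (n : ℕ) :
    lampN F f (n : ZMod P.h) = lampN F f 1 ^ n := by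
  induction n with
  | zero =>
    have := hN.lamp_add f 0 0
    rw [add_zero] at this
    simpa using this
  | succ n ih => rw [Nat.cast_succ, hN.lamp_add, ih, pow_succ]

theorem am_inr_pow (s : P.S) (n : ℕ) (z : Zm F c) :
    am F c (FreeGroup.of (Sum.inr s) ^ n) z = (z.1, lampN F (z.1, s) 1 ^ n • z.2) := by
  induction n with
  | zero => simp
  | succ n ih =>
    rw [pow_succ', map_mul, Equiv.Perm.mul_apply, ih, am_inr, pow_succ', mul_smul]

theorem cls_mul (x y : PP F) : cls F c (x * y) = mkN F x • cls F c y := by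
  unfold cls
  rw [map_mul]
  rfl

theorem cl_trans {z z' z'' : Zm F c} {r r' : ℕ} (h : Cl (am F c) r z z')
    (h' : Cl (am F c) r' z' z'') : Cl (am F c) (r' + r) z z'' := by
  obtain ⟨u, hu, rfl⟩ := h
  obtain ⟨u', hu', rfl⟩ := h'
  exact ⟨u' * u, (nr_mul _ _).trans (Nat.add_le_add hu' hu), by
    rw [map_mul, Equiv.Perm.mul_apply]⟩

theorem cl_mono {z z' : Zm F c} {r r' : ℕ} (h : Cl (am F c) r z z') (hr : r ≤ r') :
    Cl (am F c) r' z z' := by
  obtain ⟨u, hu, e⟩ := h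
  exact ⟨u, hu.trans hr, e⟩

theorem cl_move (hG : Gam1 F) (γ γ' : Gam F) (n : NN F ⧸ As F c) :
    Cl (am F c) (dG F γ γ') (γ, n) (γ', n) := by
  obtain ⟨a, ha, e⟩ := hG.dG_ex γ γ'
  exact ⟨iL P.S a, (nr_iL a).trans ha.le, by rw [am_iL, e]⟩

theorem cl_lamp (hN : NFOut F) (hp : P.h.Prime) (γ : Gam F) (s : P.S) (a : ZMod P.h)
    (n : NN F ⧸ As F c) : Cl (am F c) P.h (γ, n) (γ, lampN F (γ, s) a • n) := by
  have : NeZero P.h := ⟨hp.ne_zero⟩
  refine ⟨FreeGroup.of (Sum.inr s) ^ a.val, (nr_pow _ _).trans (ZMod.val_lt a).le, ?_⟩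
  rw [am_inr_pow, ← lamp_nat hN, ZMod.natCast_zmod_val]

theorem cl_list (hG : Gam1 F) (hN : NFOut F) (hp : P.h.Prime) (γ : Gam F) (D : ℕ)
    (l : List (Lm F × ZMod P.h)) (hl : ∀ e ∈ l, dG F γ e.1.1 ≤ D) :
    Cl (am F c) (l.length * (2 * D + P.h)) (γ, cls F c 1) (γ, cls F c (prodL F l)) := by
  induction l with
  | nil => exact ⟨1, by rw [nr_one]; exact Nat.zero_le _, by simp [prodL]⟩
  | cons e l ih =>
    obtain ⟨⟨γ', s⟩, a⟩ := e
    have hd : dG F γ γ' ≤ D := hl ((γ', s), a) List.mem_cons_self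
    have h0 := ih fun e he => hl e (List.mem_cons_of_mem _ he)
    have h1 := cl_move (c := c) hG γ γ' (cls F c (prodL F l))
    have h2 := cl_lamp (c := c) hN hp γ' s a (cls F c (prodL F l))
    have h3 := cl_move (c := c) hG γ' γ (lampN F (γ', s) a • cls F c (prodL F l))
    have e : cls F c (prodL F (((γ', s), a) :: l)) =
        lampN F (γ', s) a • cls F c (prodL F l) := by
      have : prodL F (((γ', s), a) :: l) = lmp (adj F) (γ', s) a * prodL F l := by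
        simp [prodL]
      rw [this, cls_mul]
      rfl
    rw [e]
    refine cl_mono (cl_trans (cl_trans (cl_trans h0 h1) h2) h3) ?_
    rw [hG.dG_symm γ' γ, List.length_cons, add_mul _ 1, one_mul]
    omega

theorem cl_fst (hG : Gam1 F) {z z' : Zm F c} {r : ℕ} (h : Cl (am F c) r z z') :
    dG F z.1 z'.1 ≤ r := by
  obtain ⟨u, hu, rfl⟩ := h
  rw [am_fst]
  exact (hG.dG_le _ _).trans ((nr_pL u).trans hu)

theorem mem_Uf (hB : StBall) (π : c.V × ZMod 2) (a : ℕ) (z : Zm F c) :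
    z ∈ Uf F c π a ↔ Cl (am F c) (c.R ^ 11 + a) (pos F c π, cls F c 1) z := by
  unfold Uf Cl
  simp only [Finset.mem_image, (hB _ _).1]

theorem pw_spec (hc : c.OK) (γ : Gam F) : InP F c (mkG F (pw F c γ) * γ) ∧
    ∀ a, InP F c (mkG F a * γ) → nr (pw F c γ) ≤ nr a := by
  have hex : ∃ n, ∃ a, InP F c (mkG F a * γ) ∧ nr a = n := by
    obtain ⟨x, rfl⟩ := QuotientGroup.mk'_surjective (KG F) γ
    refine ⟨_, x⁻¹, ⟨1, hc.sub 1 Cell.Qc.one, ?_⟩, rfl⟩
    change mkG F 1 = mkG F x⁻¹ * mkG F x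
    rw [← map_mul, inv_mul_cancel]
  obtain ⟨a, ha, hn⟩ := Nat.find_spec hex
  have : ∃ a, InP F c (mkG F a * γ) ∧ ∀ a', InP F c (mkG F a' * γ) → nr a ≤ nr a' :=
    ⟨a, ha, fun a' ha' => hn ▸ Nat.find_min' hex ⟨a', ha', rfl⟩⟩
  exact Classical.epsilon_spec this

/-- Nearest points of the core are unique. -/
theorem near_uniq (hT : StTree) (hP : StPre) (hb : BasOut c) {x y y' : FreeGroup P.S}
    (hy : c.Qc y) (hy' : c.Qc y') (m : ∀ z, c.Qc z → nr (x * y⁻¹) ≤ nr (x * z⁻¹))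
    (m' : ∀ z, c.Qc z → nr (x * y'⁻¹) ≤ nr (x * z⁻¹)) : y = y' := by
  obtain ⟨w, hw⟩ := hT P.S
  have hp := hP _ _ w
  obtain ⟨g, hg, hgate⟩ := hw.gate {x | c.Qc x} ⟨1, Cell.Qc.one⟩ hb.conn x
  have key : ∀ y, c.Qc y → (∀ z, c.Qc z → nr (x * y⁻¹) ≤ nr (x * z⁻¹)) → g = y := by
    intro y hy m
    have h1 := hgate y hy
    have h2 := m g hg
    rw [← hw.d_eq, ← hw.d_eq] at h2
    exact (hp.d_zero g y).1 (by omega)
  exact (key y hy m).symm.trans (key y' hy' m')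

theorem near_ex (x : FreeGroup P.S) :
    ∃ y, c.Qc y ∧ ∀ z, c.Qc z → nr (x * y⁻¹) ≤ nr (x * z⁻¹) := by
  have hex : ∃ n, ∃ y, c.Qc y ∧ nr (x * y⁻¹) = n := ⟨_, 1, Cell.Qc.one, rfl⟩
  obtain ⟨y, hy, hn⟩ := Nat.find_spec hex
  exact ⟨y, hy, fun z hz => hn ▸ Nat.find_min' hex ⟨z, hz, rfl⟩⟩

theorem Qc_K (hb : BasOut c) {x k : FreeGroup P.S} (hx : c.Qc x) (hk : k ∈ c.Kg) :
    c.Qc (x * k) ∧ c.cp (x * k) = c.cp x := by
  obtain ⟨h1, h2⟩ := (hb.memK k).1 hk
  have h3 : c.vx k = c.v0 := congrArg Prod.fst h2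
  have h4 : pr k = 0 := congrArg Prod.snd h2
  refine ⟨hb.mulP x k hx h1 h3, ?_⟩
  unfold Cell.cp
  rw [hb.vx_mul x k h3, hb.pr_mul, h4, add_zero]

theorem qf_spec (hT : StTree) (hP : StPre) (hb : BasOut c) (hG : Gam1 F) (hc : c ∈ F)
    (z : Zm F c) (x : FreeGroup P.S) (hx : x ∈ c.Qp)
    (e : mkG F x = mkG F (pw F c z.1) * z.1) (y : FreeGroup P.S) (hy : c.Qc y)
    (m : ∀ y', c.Qc y' → nr (x * y⁻¹) ≤ nr (x * y'⁻¹)) : qf F c z = c.cp y := by
  have hex : ∃ y0, ∃ x ∈ c.Qp, mkG F x = mkG F (pw F c z.1) * z.1 ∧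
      ∃ z, c.Qc z ∧ c.cp z = y0 ∧ ∀ z', c.Qc z' → nr (x * z⁻¹) ≤ nr (x * z'⁻¹) :=
    ⟨c.cp y, x, hx, e, y, hy, rfl, m⟩
  obtain ⟨x2, hx2, e2, y2, hy2, ey2, m2⟩ := Classical.epsilon_spec hex
  change c.cp y2 = qf F c z at ey2
  obtain ⟨k, hk, hd⟩ := hG.iso c hc x hx x2 hx2
  have h0 : dG F (mkG F x) (mkG F x2) = 0 := by
    have := hG.dG_le (mkG F x) 1
    rw [map_one, one_mul, nr_one] at this
    rw [e2, ← e]
    omega
  rw [h0] at hd
  have hxk : x = x2 * k := mul_inv_eq_one.1 (nr_zero hd)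
  obtain ⟨q1, q2⟩ := Qc_K hb hy2 hk
  have : y = y2 * k := by
    refine near_uniq hT hP hb hy q1 m fun z' hz' => ?_
    have h3 := m2 _ (Qc_K hb hz' (inv_mem hk)).1
    have a1 : x * (y2 * k)⁻¹ = x2 * y2⁻¹ := by rw [hxk]; group
    have a2 : x * z'⁻¹ = x2 * (z' * k⁻¹)⁻¹ := by rw [hxk]; group
    rw [a1, a2]
    exact h3
  rw [← ey2, this, q2]

theorem qf_d (hT : StTree) (hP : StPre) (hb : BasOut c) (hG : Gam1 F) (hc : c ∈ F) (ok : c.OK)
    (z : Zm F c) (y : c.V × ZMod 2) :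
    dG F z.1 (pos F c (qf F c z)) ≤ 3 * dG F z.1 (pos F c y) := by
  obtain ⟨⟨x, hx, e⟩, hmin⟩ := pw_spec (F := F) ok z.1
  obtain ⟨a0, ha0, e0⟩ := hG.dG_ex z.1 (pos F c y)
  have hr := (hb.rp y).1
  have h1 : nr (pw F c z.1) ≤ nr a0 := hmin a0 ⟨c.rp y, ok.sub _ hr, e0⟩
  obtain ⟨y0, hy0, m⟩ := near_ex (c := c) x
  rw [qf_spec hT hP hb hG hc z x hx e y0 hy0 m, hG.pos_cp c hc y0 hy0]
  have h2 : dG F z.1 (mkG F x) ≤ nr (pw F c z.1) := by rw [e]; exact hG.dG_le _ _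
  have h3 : dG F (mkG F x) (mkG F y0) ≤ nr (x * y0⁻¹) := by
    have := hG.dG_le (mkG F x) (x * y0⁻¹)⁻¹
    rw [← map_mul, nr_inv] at this
    have a : (x * y0⁻¹)⁻¹ * x = y0 := by group
    rwa [a] at this
  obtain ⟨k, hk, hd⟩ := hG.iso c hc x hx (c.rp y) (ok.sub _ hr)
  have h4 := m _ (Qc_K hb hr hk).1
  have h5 : dG F (mkG F x) (mkG F (c.rp y)) ≤ dG F (mkG F x) z.1 + dG F z.1 (pos F c y) :=
    hG.dG_tri _ _ _
  have h6 := hG.dG_tri z.1 (mkG F x) (mkG F y0)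
  rw [hG.dG_symm (mkG F x) z.1] at h5
  omega

theorem num1 {R h n : ℕ} (hR : 1000 ≤ R) (hh : h ≤ R) (hn : n ≤ 4 * R ^ 7) :
    n * (2 * (3 * R ^ 3) + h) + 3 * (4 * R ^ 3) ≤ R ^ 11 + 0 := by
  have h1 : R ≤ R ^ 3 := Nat.le_self_pow (by norm_num) R
  have h2 : n * (2 * (3 * R ^ 3) + h) ≤ 4 * R ^ 7 * (7 * R ^ 3) :=
    Nat.mul_le_mul hn (by omega)
  have h3 : R ^ 3 ≤ R ^ 10 := Nat.pow_le_pow_right (by omega) (by norm_num)
  have h4 : 1000 * R ^ 10 ≤ R * R ^ 10 := Nat.mul_le_mul_right _ hR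
  have h5 : 4 * R ^ 7 * (7 * R ^ 3) = 28 * R ^ 10 := by ring
  have h6 : R ^ 11 = R * R ^ 10 := by ring
  omega

theorem num2 {R : ℕ} (hR : 1000 ≤ R) : 3 * (4 * R ^ 3) + R + 3 * (4 * R ^ 3) ≤ R ^ 4 := by
  have h1 : R ≤ R ^ 3 := Nat.le_self_pow (by norm_num) R
  have h4 : 1000 * R ^ 3 ≤ R * R ^ 3 := Nat.mul_le_mul_right _ hR
  have h6 : R ^ 4 = R * R ^ 3 := by ring
  omega

end NearG

open NearG in
theorem pNearG (hT : StTree) (hP : StPre) (hBas : StBas) (hGam : StGam1) (hNF : StNF)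
    (hB : StBall) : StNearG := by
  intro P F hA c hc
  have ok := hA.ok c hc
  have hb := hBas P c (le_trans (by norm_num) hA.j_big) ok
  have hG := hGam P F hA
  have hN := hNF P F hA
  have hq : ∀ z, NearP F c z → dG F z.1 (pos F c (qf F c z)) ≤ 3 * (4 * c.R ^ 3) := by
    rintro z ⟨⟨y, hy⟩, -⟩
    exact (qf_d hT hP hb hG hc ok z y).trans (Nat.mul_le_mul_left _ hy)
  refine ⟨qf_spec hT hP hb hG hc, pw_spec ok, qf_d hT hP hb hG hc ok, ?_, ?_, ?_, ?_⟩
  · intro z hz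
    have h0 := hq z hz
    obtain ⟨-, l, e, hl, hd⟩ := hz
    rw [mem_Uf hB]
    have h1 := cl_move (c := c) hG (pos F c (qf F c z)) z.1 (cls F c 1)
    have h2 := cl_list (c := c) hG hN hA.prime z.1 _ l hd
    rw [← e] at h2
    refine cl_mono (cl_trans h1 h2) ?_
    rw [hG.dG_symm]
    exact le_trans (Nat.add_le_add_left h0 _) (num1 ok.R_big ok.h_le hl)
  · intro π a l z hz
    rw [mem_Uf hB] at hz ⊢
    have h1 := cl_move (c := c) hG (pos F c (go (dbl c.τ) [l] π)) (pos F c π) (cls F c 1)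
    refine cl_mono (cl_trans h1 hz) ?_
    have h2 := hb.ht.d_le π [l]
    rw [hG.pos_d c hc, hb.ht.d_symm]
    simp only [List.length_singleton] at h2
    omega
  · intro π a z hz
    rw [mem_Uf hB] at hz ⊢
    exact cl_mono hz (by omega)
  · intro z z' hz hz' hcl
    obtain ⟨u, hu, hl, e⟩ := hb.ht.conn (qf F c z) (qf F c z')
    refine ⟨u, hu, ?_, e⟩
    rw [hl, ← hG.pos_d c hc]
    have h1 := hq z hz
    have h2 := hq z' hz'
    have h3 := cl_fst hG hcl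
    have h4 := hG.dG_tri (pos F c (qf F c z)) z.1 (pos F c (qf F c z'))
    have h5 := hG.dG_tri z.1 z'.1 (pos F c (qf F c z'))
    rw [hG.dG_symm (pos F c (qf F c z)) z.1] at h4
    have h6 := num2 ok.R_big
    omega

end Pool.Agent.P.MP_9167e9_an
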